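import Pool.Agent.Helper43.LB.Defs

/-!
Flagged determinant at `x = 1` = number of fillings (row C of the project).
-/

namespace Pool.Agent.Helper43.LB

open Finset

namespace DetNT

/-- fillings, with the internal form of the caps -/
def Fil (r q B : ℕ) (l f : ℕ → ℕ) (T : Fin r → Fin q → Fin (B + 1)) : Prop :=
  (∀ (i : Fin r) (j j' : Fin q), j ≤ j' → T i j ≤ T i j') ∧
  (∀ (i i' : Fin r) (j : Fin q), i ≤ i' → T i j ≤ T i' j) ∧
  (∀ (i : Fin r) (j : Fin q), (j : ℕ) < l i → (T i j : ℕ) + i < f i) ∧
  (∀ (i : Fin r) (j : Fin q), l i ≤ (j : ℕ) → (T i j : ℕ) = B)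

open Classical in
/-- the finset of fillings -/
noncomputable def FS (r q B : ℕ) (l f : ℕ → ℕ) : Finset (Fin r → Fin q → Fin (B + 1)) :=
  Finset.univ.filter (Fil r q B l f)

theorem mem_FS {r q B : ℕ} {l f : ℕ → ℕ} {T : Fin r → Fin q → Fin (B + 1)} :
    T ∈ FS r q B l f ↔ Fil r q B l f T := by
  simp [FS]

/-- one row of the matrix -/
def rw0 (r a b i : ℕ) : Fin r → ℤ := fun c =>
  if a + (c : ℕ) < i then 0 else hc b (a + (c : ℕ) - i)

theorem jt_row (r : ℕ) (l f : ℕ → ℕ) (i : Fin r) : jt r l f i = rw0 r (l i) (f i) i := rfl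

theorem jt_update (r : ℕ) (l f : ℕ → ℕ) (i : Fin r) (a b : ℕ) :
    jt r (Function.update l i a) (Function.update f i b)
      = Matrix.updateRow (jt r l f) i (rw0 r a b i) := by
  funext x
  by_cases hx : x = i
  · subst hx
    rw [Matrix.updateRow_self, jt_row]
    simp
  · rw [Matrix.updateRow_ne hx, jt_row, jt_row]
    have : (x : ℕ) ≠ (i : ℕ) := fun h => hx (Fin.ext h)
    rw [Function.update_of_ne this, Function.update_of_ne this]

theorem rw0_pascal (r a b i : ℕ) (ha : 0 < a) (hb : 0 < b) :
    rw0 r a b i = rw0 r (a - 1) b i + rw0 r a (b - 1) i := by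
  funext c
  simp only [rw0, Pi.add_apply]
  obtain ⟨a, rfl⟩ : ∃ a', a = a' + 1 := ⟨a - 1, by omega⟩
  obtain ⟨b, rfl⟩ : ∃ b', b = b' + 1 := ⟨b - 1, by omega⟩
  simp only [Nat.add_sub_cancel]
  by_cases h1 : a + 1 + (c : ℕ) < i
  · rw [if_pos h1, if_pos (by omega), if_pos h1, add_zero]
  · rw [if_neg h1, if_neg h1]
    by_cases h2 : a + (c : ℕ) < i
    · rw [if_pos h2]
      have h3 : a + 1 + (c : ℕ) - i = 0 := by omega
      rw [h3]
      simp [hc]
    · rw [if_neg h2]
      obtain ⟨n, hn⟩ : ∃ n, a + (c : ℕ) - i = n := ⟨_, rfl⟩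
      have h3 : a + 1 + (c : ℕ) - i = n + 1 := by omega
      rw [h3, hn]
      simp only [hc]
      have e1 : b + 1 + (n + 1) - 1 = b + n + 1 := by omega
      have e2 : b + 1 + n - 1 = b + n := by omega
      have e3 : b + (n + 1) - 1 = b + n := by omega
      rw [e1, e2, e3, Nat.choose_succ_succ]
      push_cast
      ring

theorem det_rec (r : ℕ) (l f : ℕ → ℕ) (i : Fin r) (hl : 0 < l i) (hf : 0 < f i) :
    (jt r l f).det = (jt r (Function.update l i (l i - 1)) f).det
      + (jt r l (Function.update f i (f i - 1))).det := by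
  have h0 : jt r l f = Matrix.updateRow (jt r l f) i (rw0 r (l i) (f i) i) := by
    rw [← jt_update, Function.update_eq_self, Function.update_eq_self]
  have h1 : jt r (Function.update l i (l i - 1)) f
      = Matrix.updateRow (jt r l f) i (rw0 r (l i - 1) (f i) i) := by
    rw [← jt_update, Function.update_eq_self]
  have h2 : jt r l (Function.update f i (f i - 1))
      = Matrix.updateRow (jt r l f) i (rw0 r (l i) (f i - 1) i) := by
    rw [← jt_update, Function.update_eq_self]
  rw [h1, h2, ← Matrix.det_updateRow_add, ← rw0_pascal r _ _ _ hl hf, ← h0]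

theorem det_zero (r : ℕ) (l f : ℕ → ℕ) (i i' : Fin r) (hi : (i' : ℕ) = i + 1) (hl : 0 < l i)
    (hll : l i' = l i) (hff : f i' = f i) :
    (jt r (Function.update l i (l i - 1)) f).det = 0 := by
  have hne : i ≠ i' := by
    intro h
    rw [h] at hi
    omega
  apply Matrix.det_zero_of_row_eq hne
  funext c
  rw [jt_row, jt_row]
  have hne' : (i' : ℕ) ≠ i := by omega
  simp only [Function.update_self, Function.update_of_ne hne', hff, hll, rw0]
  rw [hi]
  by_cases h : l i + (c : ℕ) < i + 1
  · rw [if_pos h, if_pos (by omega)]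
  · rw [if_neg h, if_neg (by omega)]
    congr 1
    omega

/-- lowering the cap in case of equality in the next row -/
theorem FS_lower (r q B : ℕ) (l f : ℕ → ℕ) (i i' : Fin r) (hi : (i' : ℕ) = i + 1)
    (hll : l i' = l i) (hff : f i' = f i) :
    FS r q B l f = FS r q B l (Function.update f i (f i - 1)) := by
  ext T
  rw [mem_FS, mem_FS]
  constructor
  · rintro ⟨h1, h2, h3, h4⟩
    refine ⟨h1, h2, ?_, h4⟩
    intro a b hab
    by_cases ha : a = i
    · subst ha
      rw [Function.update_self]
      have h5 := h3 i' b (by rw [hll]; exact hab)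
      have h6 : T a b ≤ T i' b := h2 a i' b (Fin.le_def.2 (by omega))
      have h7 : (T a b : ℕ) ≤ T i' b := Fin.le_def.1 h6
      rw [hff, hi] at h5
      omega
    · have : (a : ℕ) ≠ (i : ℕ) := fun h => ha (Fin.ext h)
      rw [Function.update_of_ne this]
      exact h3 a b hab
  · rintro ⟨h1, h2, h3, h4⟩
    refine ⟨h1, h2, ?_, h4⟩
    intro a b hab
    have h5 := h3 a b hab
    by_cases ha : a = i
    · subst ha
      rw [Function.update_self] at h5
      omega
    · have : (a : ℕ) ≠ (i : ℕ) := fun h => ha (Fin.ext h)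
      rwa [Function.update_of_ne this] at h5

/-- set the value of one cell -/
def setc {r q B : ℕ} (T : Fin r → Fin q → Fin (B + 1)) (a : Fin r) (b : Fin q) (v : Fin (B + 1)) :
    Fin r → Fin q → Fin (B + 1) := fun i j => if i = a ∧ j = b then v else T i j

theorem setc_self {r q B : ℕ} (T : Fin r → Fin q → Fin (B + 1)) (a : Fin r) (b : Fin q)
    (v : Fin (B + 1)) : setc T a b v a b = v := by simp [setc]

theorem setc_ne {r q B : ℕ} (T : Fin r → Fin q → Fin (B + 1)) {a i : Fin r} {b j : Fin q}
    (v : Fin (B + 1)) (h : ¬ (i = a ∧ j = b)) : setc T a b v i j = T i j := by simp [setc, h]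

theorem setc_setc {r q B : ℕ} (T : Fin r → Fin q → Fin (B + 1)) (a : Fin r) (b : Fin q)
    (v w : Fin (B + 1)) : setc (setc T a b v) a b w = setc T a b w := by
  funext i j
  by_cases h : i = a ∧ j = b
  · simp [setc, h]
  · simp [setc, h]

theorem setc_eq {r q B : ℕ} (T : Fin r → Fin q → Fin (B + 1)) (a : Fin r) (b : Fin q)
    (v : Fin (B + 1)) (h : T a b = v) : setc T a b v = T := by
  funext i j
  by_cases hh : i = a ∧ j = b
  · obtain ⟨rfl, rfl⟩ := hh
    simp [setc, h]
  · simp [setc, hh]

/-- the recursion for the fillings -/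
theorem FS_rec (r q B : ℕ) (l f : ℕ → ℕ) (i : Fin r) (hl0 : 0 < l i) (hlq : l i ≤ q)
    (hnext : ∀ a : Fin r, i < a → l a < l i)
    (hprev : ∀ a : Fin r, a < i → l a = l i)
    (hfprev : ∀ a : Fin r, a < i → f a < f i - (i - a - 1))
    (hfi : (i : ℕ) < f i) (hfB : f i ≤ B + i + 1) :
    (FS r q B l f).card = (FS r q B (Function.update l i (l i - 1)) f).card
      + (FS r q B l (Function.update f i (f i - 1))).card := by
  classical
  -- the last cell of row `i`
  let b : Fin q := ⟨l i - 1, by omega⟩
  have hb : (b : ℕ) = l i - 1 := rfl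
  let v : Fin (B + 1) := ⟨f i - 1 - i, by omega⟩
  have hv : (v : ℕ) = f i - 1 - i := rfl
  have hlne : ∀ a : Fin r, a ≠ i → Function.update l (i : ℕ) (l i - 1) a = l a := by
    intro a ha
    exact Function.update_of_ne (fun h => ha (Fin.ext h)) _ _
  have hfne : ∀ a : Fin r, a ≠ i → Function.update f (i : ℕ) (f i - 1) a = f a := by
    intro a ha
    exact Function.update_of_ne (fun h => ha (Fin.ext h)) _ _
  have hsplit := Finset.card_filter_add_card_filter_not (s := FS r q B l f)
    (p := fun T => (T i b : ℕ) + i + 1 = f i)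
  rw [← hsplit]
  congr 1
  · -- bijection
    apply Finset.card_bij' (fun T _ => setc T i b (Fin.last B)) (fun T _ => setc T i b v)
    · -- maps to
      intro T hT
      rw [Finset.mem_filter, mem_FS] at hT
      obtain ⟨⟨h1, h2, h3, h4⟩, h5⟩ := hT
      rw [mem_FS]
      refine ⟨?_, ?_, ?_, ?_⟩
      · intro a c c' hcc
        by_cases hc' : a = i ∧ c' = b
        · rw [hc'.1, hc'.2, setc_self]
          exact Fin.le_last _
        · rw [setc_ne T _ hc']
          by_cases hc0 : a = i ∧ c = b
          · obtain ⟨rfl, rfl⟩ := hc0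
            rw [setc_self]
            have h6 : b < c' := lt_of_le_of_ne hcc (fun h => hc' ⟨rfl, h.symm⟩)
            have h7 := h4 a c' (by have := Fin.lt_def.1 h6; omega)
            rw [Fin.le_def, h7]
            simp
          · rw [setc_ne T _ hc0]
            exact h1 a c c' hcc
      · intro a a' c haa
        by_cases hc' : a' = i ∧ c = b
        · rw [hc'.1, hc'.2, setc_self]
          exact Fin.le_last _
        · rw [setc_ne T _ hc']
          by_cases hc0 : a = i ∧ c = b
          · obtain ⟨rfl, rfl⟩ := hc0
            rw [setc_self]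
            have h6 : a < a' := lt_of_le_of_ne haa (fun h => hc' ⟨h.symm, rfl⟩)
            have h7 := h4 a' b (by have := hnext a' h6; omega)
            rw [Fin.le_def, h7]
            simp
          · rw [setc_ne T _ hc0]
            exact h2 a a' c haa
      · intro a c hac
        by_cases ha : a = i
        · subst ha
          rw [Function.update_self] at hac
          rw [setc_ne T _ (by rintro ⟨-, rfl⟩; omega)]
          exact h3 a c (by omega)
        · rw [hlne a ha] at hac
          rw [setc_ne T _ (by rintro ⟨h, -⟩; exact ha h)]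
          exact h3 a c hac
      · intro a c hac
        by_cases ha : a = i
        · subst ha
          rw [Function.update_self] at hac
          by_cases hcb : c = b
          · rw [hcb, setc_self]
            simp
          · rw [setc_ne T _ (by rintro ⟨-, h⟩; exact hcb h)]
            have : (c : ℕ) ≠ b := fun h => hcb (Fin.ext h)
            exact h4 a c (by omega)
        · rw [hlne a ha] at hac
          rw [setc_ne T _ (by rintro ⟨h, -⟩; exact ha h)]
          exact h4 a c hac
    · -- inverse maps to
      intro T hT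
      rw [mem_FS] at hT
      obtain ⟨h1, h2, h3, h4⟩ := hT
      rw [Finset.mem_filter, mem_FS]
      refine ⟨⟨?_, ?_, ?_, ?_⟩, ?_⟩
      · intro a c c' hcc
        by_cases hc' : a = i ∧ c' = b
        · obtain ⟨rfl, rfl⟩ := hc'
          rw [setc_self]
          by_cases hcb : c = b
          · rw [hcb, setc_self]
          · rw [setc_ne T _ (by rintro ⟨-, h⟩; exact hcb h)]
            have h6 : (c : ℕ) < b := Fin.lt_def.1 (lt_of_le_of_ne hcc hcb)
            have h7 := h3 a c (by rw [Function.update_self]; omega)
            rw [Fin.le_def]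
            omega
        · rw [setc_ne T _ hc']
          by_cases hc0 : a = i ∧ c = b
          · obtain ⟨rfl, rfl⟩ := hc0
            rw [setc_self]
            have h6 : (b : ℕ) < c' :=
              Fin.lt_def.1 (lt_of_le_of_ne hcc (fun h => hc' ⟨rfl, h.symm⟩))
            have h7 := h4 a c' (by rw [Function.update_self]; omega)
            rw [Fin.le_def, h7]
            omega
          · rw [setc_ne T _ hc0]
            exact h1 a c c' hcc
      · intro a a' c haa
        by_cases hc' : a' = i ∧ c = b
        · obtain ⟨rfl, rfl⟩ := hc'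
          rw [setc_self]
          by_cases ha : a = a'
          · rw [ha, setc_self]
          · rw [setc_ne T _ (by rintro ⟨h, -⟩; exact ha h)]
            have h6 : a < a' := lt_of_le_of_ne haa ha
            have h7 := h3 a b (by rw [hlne a ha, hprev a h6]; omega)
            have h8 := hfprev a h6
            have h9 := Fin.lt_def.1 h6
            rw [Fin.le_def]
            omega
        · rw [setc_ne T _ hc']
          by_cases hc0 : a = i ∧ c = b
          · obtain ⟨rfl, rfl⟩ := hc0
            rw [setc_self]
            have h6 : a < a' := lt_of_le_of_ne haa (fun h => hc' ⟨h.symm, rfl⟩)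
            have h7 := h4 a' b (by rw [hlne a' h6.ne']; have := hnext a' h6; omega)
            rw [Fin.le_def, h7]
            omega
          · rw [setc_ne T _ hc0]
            exact h2 a a' c haa
      · intro a c hac
        by_cases ha : a = i
        · subst ha
          by_cases hcb : c = b
          · rw [hcb, setc_self]
            omega
          · rw [setc_ne T _ (by rintro ⟨-, h⟩; exact hcb h)]
            have : (c : ℕ) ≠ b := fun h => hcb (Fin.ext h)
            exact h3 a c (by rw [Function.update_self]; omega)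
        · rw [setc_ne T _ (by rintro ⟨h, -⟩; exact ha h)]
          exact h3 a c (by rw [hlne a ha]; exact hac)
      · intro a c hac
        by_cases ha : a = i
        · subst ha
          rw [setc_ne T _ (by rintro ⟨-, rfl⟩; omega)]
          exact h4 a c (by rw [Function.update_self]; omega)
        · rw [setc_ne T _ (by rintro ⟨h, -⟩; exact ha h)]
          exact h4 a c (by rw [hlne a ha]; exact hac)
      · rw [setc_self]
        omega
    · intro T hT
      rw [Finset.mem_filter, mem_FS] at hT
      rw [setc_setc]
      apply setc_eq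
      apply Fin.ext
      have := hT.2
      omega
    · intro T hT
      rw [mem_FS] at hT
      obtain ⟨h1, h2, h3, h4⟩ := hT
      rw [setc_setc]
      apply setc_eq
      apply Fin.ext
      rw [h4 i b (by rw [Function.update_self])]
      simp
  · -- the last cell is smaller
    congr 1
    ext T
    rw [Finset.mem_filter, mem_FS, mem_FS]
    constructor
    · rintro ⟨⟨h1, h2, h3, h4⟩, h5⟩
      refine ⟨h1, h2, ?_, h4⟩
      intro a c hac
      by_cases ha : a = i
      · subst ha
        rw [Function.update_self]
        have h6 := h3 a b (by omega)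
        have h7 : (T a c : ℕ) ≤ T a b := Fin.le_def.1 (h1 a c b (Fin.le_def.2 (by omega)))
        omega
      · rw [hfne a ha]
        exact h3 a c hac
    · rintro ⟨h1, h2, h3, h4⟩
      refine ⟨⟨h1, h2, ?_, h4⟩, ?_⟩
      · intro a c hac
        have h5 := h3 a c hac
        by_cases ha : a = i
        · subst ha
          rw [Function.update_self] at h5
          omega
        · rwa [hfne a ha] at h5
      · have h5 := h3 i b (by omega)
        rw [Function.update_self] at h5
        omega

theorem FS_base (r q B : ℕ) (l f : ℕ → ℕ) (h : ∀ i : Fin r, l i = 0) :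
    (FS r q B l f).card = 1 := by
  rw [Finset.card_eq_one]
  refine ⟨fun _ _ => Fin.last B, ?_⟩
  ext T
  rw [mem_FS, Finset.mem_singleton]
  constructor
  · rintro ⟨-, -, -, h4⟩
    funext i j
    apply Fin.ext
    rw [h4 i j (by rw [h i]; exact Nat.zero_le _)]
    simp
  · rintro rfl
    refine ⟨fun _ _ _ _ => le_rfl, fun _ _ _ _ => le_rfl, ?_, ?_⟩
    · intro i j hij
      rw [h i] at hij
      omega
    · intro i j _
      simp

theorem det_base (r : ℕ) (l f : ℕ → ℕ) (h : ∀ i : Fin r, l i = 0) :
    (jt r l f).det = 1 := by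
  rw [Matrix.det_of_isUpperTriangular]
  · apply Finset.prod_eq_one
    intro i _
    rw [jt_row]
    simp [rw0, h i, hc]
  · intro i j hij
    rw [jt_row]
    have : (j : ℕ) < i := hij
    simp [rw0, h i, this]

theorem det_f0 (r : ℕ) (l f : ℕ → ℕ) (hr : 0 < r) (hl : 0 < l 0) (hf : f 0 = 0) :
    (jt r l f).det = 0 := by
  apply Matrix.det_eq_zero_of_row_eq_zero ⟨0, hr⟩
  intro c
  rw [jt_row]
  simp only [rw0, hf, hc]
  rw [if_neg (by simp), Nat.choose_eq_zero_of_lt (by simp; omega)]
  simp

theorem FS_f0 (r q B : ℕ) (l f : ℕ → ℕ) (hr : 0 < r) (hl : 0 < l 0) (hq : l 0 ≤ q)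
    (hf : f 0 = 0) : (FS r q B l f).card = 0 := by
  rw [Finset.card_eq_zero, Finset.eq_empty_iff_forall_notMem]
  intro T hT
  rw [mem_FS] at hT
  have := hT.2.2.1 ⟨0, hr⟩ ⟨0, by omega⟩ hl
  simp only [hf] at this
  omega

theorem main (r q B : ℕ) : ∀ (s : ℕ) (l f : ℕ → ℕ), ∑ i ∈ range r, (l i + f i) = s →
    (∀ i, i + 1 < r → l (i + 1) ≤ l i) → (∀ i, i + 1 < r → f i ≤ f (i + 1)) →
    l 0 ≤ q → (∀ i < r, 0 < l i → f i ≤ B + i + 1) →
    (jt r l f).det = ((FS r q B l f).card : ℤ) := by
  intro s
  induction s using Nat.strong_induction_on with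
  | _ s ih =>
  intro l f hs hl hf hq hB
  have hlanti : ∀ a c, a ≤ c → c < r → l c ≤ l a := by
    intro a c hac
    induction c, hac using Nat.le_induction with
    | base => intro _; exact le_rfl
    | succ c hac ihc =>
      intro hc
      exact (hl c hc).trans (ihc (by omega))
  rcases Nat.eq_zero_or_pos r with rfl | hr
  · rw [det_base 0 l f (fun i => i.elim0), FS_base 0 q B l f (fun i => i.elim0)]
    rfl
  rcases Nat.eq_zero_or_pos (l 0) with h0 | h0
  · have h : ∀ i : Fin r, l i = 0 := fun i => by
      have := hlanti 0 i (Nat.zero_le _) i.2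
      omega
    rw [det_base r l f h, FS_base r q B l f h]
    rfl
  rcases Nat.eq_zero_or_pos (f 0) with g0 | g0
  · rw [det_f0 r l f hr h0 g0, FS_f0 r q B l f hr h0 hq g0]
    rfl
  -- the row
  have hex : ∃ i, i < r ∧ (i + 1 < r → l (i + 1) = l i → f (i + 1) = f i) :=
    ⟨r - 1, by omega, fun h => by omega⟩
  classical
  obtain ⟨i, ⟨hir, hiP⟩, hmin⟩ : ∃ i, (i < r ∧ (i + 1 < r → l (i + 1) = l i → f (i + 1) = f i)) ∧
      ∀ j < i, ¬ (j < r ∧ (j + 1 < r → l (j + 1) = l j → f (j + 1) = f j)) :=
    ⟨Nat.find hex, Nat.find_spec hex, fun j hj => Nat.find_min hex hj⟩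
  have hmin' : ∀ j < i, l (j + 1) = l j ∧ f j < f (j + 1) := by
    intro j hj
    have h1 := hmin j hj
    push Not at h1
    obtain ⟨-, h3, h4⟩ := h1 (by omega)
    have := hf j (by omega)
    exact ⟨h3, by omega⟩
  have hli : ∀ j ≤ i, l j = l 0 ∧ f 0 + j ≤ f j := by
    intro j
    induction j with
    | zero => intro _; exact ⟨rfl, by omega⟩
    | succ j ihj =>
      intro hj
      obtain ⟨h1, h2⟩ := ihj (by omega)
      obtain ⟨h3, h4⟩ := hmin' j (by omega)
      exact ⟨by omega, by omega⟩
  have hfdiff : ∀ j, j ≤ i → ∀ t, j + t ≤ i → f j + t ≤ f (j + t) := by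
    intro j _ t
    induction t with
    | zero => intro _; exact le_rfl
    | succ t iht =>
      intro ht
      have h1 := iht (by omega)
      have h2 := (hmin' (j + t) (by omega)).2
      have e : j + (t + 1) = j + t + 1 := by omega
      rw [e]
      omega
  have hl1 : 0 < l i := by rw [(hli i le_rfl).1]; exact h0
  have hf1 : i + 1 ≤ f i := by have := (hli i le_rfl).2; omega
  have hsum1 : ∀ g : ℕ → ℕ, 0 < g i →
      ∑ x ∈ range r, Function.update g i (g i - 1) x + 1 = ∑ x ∈ range r, g x := by
    intro g hg
    rw [Finset.sum_update_of_mem (Finset.mem_range.2 hir)]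
    rw [← Finset.add_sum_erase (range r) g (Finset.mem_range.2 hir), Finset.sdiff_singleton_eq_erase]
    omega
  have hdec2 : ∑ x ∈ range r, (l x + Function.update f i (f i - 1) x) < s := by
    rw [Finset.sum_add_distrib] at hs ⊢
    have := hsum1 f (by omega)
    omega
  have hdec1 : ∑ x ∈ range r, (Function.update l i (l i - 1) x + f x) < s := by
    rw [Finset.sum_add_distrib] at hs ⊢
    have := hsum1 l (by omega)
    omega
  -- properties of the lowered flags
  have hf' : ∀ a, a + 1 < r → Function.update f i (f i - 1) a ≤ Function.update f i (f i - 1) (a + 1) := by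
    intro a ha
    by_cases h1 : a + 1 = i
    · subst h1
      rw [Function.update_self, Function.update_of_ne (by omega)]
      have := (hmin' a (by omega)).2
      omega
    · rw [Function.update_of_ne h1]
      by_cases h2 : a = i
      · subst h2
        rw [Function.update_self]
        have := hf a ha
        omega
      · rw [Function.update_of_ne h2]
        exact hf a ha
  have hB' : ∀ a < r, 0 < l a → Function.update f i (f i - 1) a ≤ B + a + 1 := by
    intro a ha hla
    have := hB a ha hla
    by_cases h2 : a = i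
    · subst h2
      rw [Function.update_self]
      omega
    · rw [Function.update_of_ne h2]
      exact this
  have e2 := ih _ hdec2 l (Function.update f i (f i - 1)) rfl hl hf' hq hB'
  have hrec := det_rec r l f ⟨i, hir⟩ hl1 (by simp only; omega)
  simp only at hrec
  by_cases hcase : i + 1 < r ∧ l (i + 1) = l i
  · -- equal flags
    obtain ⟨hc1, hc2⟩ := hcase
    have hc3 := hiP hc1 hc2
    have hz := det_zero r l f ⟨i, hir⟩ ⟨i + 1, hc1⟩ rfl hl1 hc2 hc3
    have hlow := FS_lower r q B l f ⟨i, hir⟩ ⟨i + 1, hc1⟩ rfl hc2 hc3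
    simp only at hz hlow
    rw [hrec, hz, zero_add, e2, hlow]
  · -- end of the block
    have hnext : ∀ a, i < a → a < r → l a < l i := by
      intro a ha har
      have h1 : ¬ l (i + 1) = l i := fun h => hcase ⟨by omega, h⟩
      have h2 := hl i (by omega)
      have h3 := hlanti (i + 1) a (by omega) har
      omega
    have hl' : ∀ a, a + 1 < r →
        Function.update l i (l i - 1) (a + 1) ≤ Function.update l i (l i - 1) a := by
      intro a ha
      by_cases h1 : a = i
      · subst h1
        rw [Function.update_self, Function.update_of_ne (by omega)]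
        have := hnext (a + 1) (by omega) ha
        omega
      · rw [Function.update_of_ne h1]
        by_cases h2 : a + 1 = i
        · rw [h2, Function.update_self]
          have := hl a ha
          rw [h2] at this
          omega
        · rw [Function.update_of_ne h2]
          exact hl a ha
    have hq' : Function.update l i (l i - 1) 0 ≤ q := by
      by_cases h1 : 0 = i
      · rw [← h1, Function.update_self]
        omega
      · rw [Function.update_of_ne h1]
        exact hq
    have hB'' : ∀ a < r, 0 < Function.update l i (l i - 1) a → f a ≤ B + a + 1 := by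
      intro a ha hla
      by_cases h2 : a = i
      · subst h2
        exact hB a ha hl1
      · rw [Function.update_of_ne h2] at hla
        exact hB a ha hla
    have e1 := ih _ hdec1 (Function.update l i (l i - 1)) f rfl hl' hf hq' hB''
    have hrecF := FS_rec r q B l f ⟨i, hir⟩ hl1 (by
        have := (hli i le_rfl).1
        simp only
        omega) (fun a ha => hnext a (Fin.lt_def.1 ha) a.2)
      (fun a ha => by
        have h1 := (hli a (le_of_lt (Fin.lt_def.1 ha))).1
        have h2 := (hli i le_rfl).1
        simp only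
        omega)
      (fun a ha => by
        have h1 : (a : ℕ) < i := Fin.lt_def.1 ha
        have h2 := hfdiff a (by omega) (i - a) (by omega)
        have h3 : (a : ℕ) + (i - a) = i := by omega
        rw [h3] at h2
        simp only
        omega) (by simp only; omega) (by
        have := hB i hir hl1
        simp only
        omega)
    simp only at hrecF
    rw [hrec, e1, e2, hrecF]
    push_cast
    ring

end DetNT

theorem det_jt (r q B : ℕ) (l f : ℕ → ℕ) (hl : ∀ i, l (i + 1) ≤ l i) (hf : ∀ i, f i ≤ f (i + 1))
    (hpos : ∀ i < r, 0 < l i → i < f i) (hq : l 0 ≤ q) (hB : ∀ i < r, 0 < l i → f i ≤ B + i + 1) :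
    (jt r l f).det = (NT r q B l (fun i => f i - (i + 1)) : ℤ) := by
  rw [DetNT.main r q B _ l f rfl (fun i _ => hl i) (fun i _ => hf i) hq hB]
  congr 1
  classical
  unfold NT
  rw [Nat.card_eq_fintype_card, Fintype.card_subtype]
  congr 1
  ext T
  rw [DetNT.mem_FS, Finset.mem_filter]
  constructor
  · rintro ⟨h1, h2, h3, h4⟩
    refine ⟨Finset.mem_univ _, h1, h2, ?_, h4⟩
    intro i j hij
    have h5 := h3 i j hij
    show (T i j : ℕ) ≤ f i - (i + 1)
    omega
  · rintro ⟨-, h1, h2, h3, h4⟩
    refine ⟨h1, h2, ?_, h4⟩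
    intro i j hij
    have h5 : (T i j : ℕ) ≤ f i - (i + 1) := h3 i j hij
    have h6 := hpos i i.2 (by omega)
    omega

end Pool.Agent.Helper43.LB
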